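import Mathlib

/-!
# Corestriction of cocycles, twisted by characters (helper19)
-/

set_option autoImplicit false

namespace Pool.Agent.K3h19.MT

open Finset

section alg

variable {G : Type} [Group G] {V : Type} [AddCommGroup V] [Module ℚ_[2] V]
  (R : Representation ℚ_[2] G V) (H : Subgroup G) [H.FiniteIndex]

noncomputable instance : Fintype (G ⧸ H) := Fintype.ofFinite _

/-- representatives -/
noncomputable def rep (x : G ⧸ H) : G := Quotient.out x

lemma rep_mk (x : G ⧸ H) : ((rep H x : G) : G ⧸ H) = x := Quotient.out_eq x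

/-- the element of `H` -/
noncomputable def hh (σ : G) (x : G ⧸ H) : H :=
  ⟨(rep H x)⁻¹ * σ * rep H (σ⁻¹ • x), by
    rw [mul_assoc, ← QuotientGroup.eq, rep_mk]
    have h : ((σ * rep H (σ⁻¹ • x) : G) : G ⧸ H) = σ • ((rep H (σ⁻¹ • x) : G) : G ⧸ H) := rfl
    rw [h, rep_mk, smul_inv_smul]⟩

lemma hh_coe (σ : G) (x : G ⧸ H) : (hh H σ x : G) = (rep H x)⁻¹ * σ * rep H (σ⁻¹ • x) := rfl

lemma rep_hh (σ : G) (x : G ⧸ H) : rep H x * hh H σ x = σ * rep H (σ⁻¹ • x) := by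
  rw [hh_coe]; group

lemma hh_mul (σ τ : G) (x : G ⧸ H) : hh H (σ * τ) x = hh H σ x * hh H τ (σ⁻¹ • x) := by
  apply Subtype.ext
  rw [Subgroup.coe_mul, hh_coe, hh_coe, hh_coe, mul_inv_rev, mul_smul]
  group

variable {H}

/-- the sign -/
noncomputable def sg (χ : G →* ℤˣ) (σ : G) : ℚ_[2] := (((χ σ : ℤˣ) : ℤ) : ℚ_[2])

lemma sg_mul (χ : G →* ℤˣ) (σ τ : G) : sg χ (σ * τ) = sg χ σ * sg χ τ := by
  unfold sg; rw [map_mul]; push_cast; rfl

lemma sg_of {χ : G →* ℤˣ} {σ : G} (h : χ σ = 1) : sg χ σ = 1 := by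
  unfold sg; rw [h]; simp

variable (H)

/-- the corestriction of the cocycle `c` of `H`, twisted by `χ` -/
noncomputable def cor (χ : G →* ℤˣ) (c : H → V) (σ : G) : V :=
  ∑ x : G ⧸ H, sg χ (rep H x) • R (rep H x) (c (hh H σ x))

variable {R H}

lemma cor_mul {χ : G →* ℤˣ} (hχ : ∀ h ∈ H, χ h = 1) {c : H → V}
    (hc : ∀ σ τ : H, c (σ * τ) = c σ + R σ (c τ)) (σ τ : G) :
    cor R H χ c (σ * τ) = cor R H χ c σ + sg χ σ • R σ (cor R H χ c τ) := by
  have h1 : ∀ x : G ⧸ H, sg χ (rep H x) • R (rep H x) (c (hh H (σ * τ) x)) =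
      sg χ (rep H x) • R (rep H x) (c (hh H σ x)) +
      sg χ σ • R σ (sg χ (rep H (σ⁻¹ • x)) • R (rep H (σ⁻¹ • x)) (c (hh H τ (σ⁻¹ • x)))) := by
    intro x
    rw [hh_mul, hc, map_add, smul_add]
    congr 1
    rw [← Module.End.mul_apply, ← map_mul, rep_hh, map_mul, Module.End.mul_apply, map_smul, smul_smul]
    congr 1
    have h2 : sg χ (rep H x * hh H σ x) = sg χ (σ * rep H (σ⁻¹ • x)) := by rw [rep_hh]
    rw [sg_mul, sg_mul, sg_of (hχ _ (hh H σ x).2), mul_one] at h2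
    exact h2
  unfold cor
  rw [Finset.sum_congr rfl fun x _ => h1 x, Finset.sum_add_distrib]
  congr 1
  rw [map_sum, Finset.smul_sum]
  exact Fintype.sum_equiv (MulAction.toPerm σ⁻¹) _ _ fun x => rfl

lemma inv_smul_of_mem [H.Normal] {σ : G} (h : σ ∈ H) (x : G ⧸ H) : σ⁻¹ • x = x := by
  have h1 : σ⁻¹ • x = ((σ⁻¹ * rep H x : G) : G ⧸ H) := by
    rw [← rep_mk H x]
    show ((σ⁻¹ * rep H x : G) : G ⧸ H) = _
    rw [rep_mk]
  rw [h1]
  conv_rhs => rw [← rep_mk H x]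
  rw [QuotientGroup.eq, mul_inv_rev, inv_inv]
  have := Subgroup.Normal.conj_mem (inferInstance : H.Normal) σ h (rep H x)⁻¹
  rwa [inv_inv] at this

lemma hh_of_mem [H.Normal] {σ : G} (h : σ ∈ H) (x : G ⧸ H) :
    (hh H σ x : G) = (rep H x)⁻¹ * σ * rep H x := by
  rw [hh_coe, inv_smul_of_mem h]

/-- restriction of a conjugate -/
lemma conj_cob {g σ : G} {y v : V} {σ' : G} (h : σ' = g⁻¹ * σ * g) (hv : v = R σ' y - y) :
    R g v = R σ (R g y) - R g y := by
  subst h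
  rw [hv, map_sub, ← Module.End.mul_apply, ← map_mul, ← Module.End.mul_apply, ← map_mul]
  congr 3
  group

/-- orthogonality of characters: a cocycle with trivial corestrictions is trivial -/
theorem triv_of_cor [H.Normal] {ι : Type} [Fintype ι] [Nonempty ι] (X : ι → G →* ℤˣ)
    (hX : ∀ g, g ∉ H → ∑ i, sg (X i) g = 0) (hX1 : ∀ i, ∀ h ∈ H, X i h = 1) {c : H → V}
    (hc : ∀ σ τ : H, c (σ * τ) = c σ + R σ (c τ))
    (h : ∀ i, ∃ y, ∀ σ ∈ H, cor R H (X i) c σ = R σ y - y) :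
    ∃ y, ∀ σ : H, c σ = R σ y - y := by
  choose y hy using h
  set x₀ : G ⧸ H := ((1 : G) : G ⧸ H) with hx₀
  have h0 : rep H x₀ ∈ H := by
    have h1 : ((1 : G) : G ⧸ H) = ((rep H x₀ : G) : G ⧸ H) := by rw [rep_mk]
    rw [QuotientGroup.eq] at h1
    simpa using h1
  have hne : ∀ x, x ≠ x₀ → rep H x ∉ H := by
    intro x hx h1
    apply hx
    rw [← rep_mk H x, hx₀, eq_comm, QuotientGroup.eq]
    simpa using h1
  set m : ℚ_[2] := (Fintype.card ι : ℚ_[2]) with hm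
  have hm0 : m ≠ 0 := by
    rw [hm]
    exact_mod_cast Fintype.card_ne_zero
  have key : ∀ σ : H, ∑ i, cor R H (X i) c σ = m • R (rep H x₀) (c (hh H σ x₀)) := by
    intro σ
    unfold cor
    rw [Finset.sum_comm, Finset.sum_eq_single x₀]
    · rw [← Finset.sum_smul]
      congr 1
      rw [Finset.sum_congr rfl fun i _ => sg_of (hX1 i _ h0), Finset.sum_const, nsmul_eq_mul,
        mul_one, Finset.card_univ]
    · intro x _ hx
      rw [← Finset.sum_smul, hX _ (hne x hx), zero_smul]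
    · intro h1
      exact absurd (Finset.mem_univ _) h1
  refine ⟨m⁻¹ • (∑ i, y i) - c ⟨_, h0⟩, fun σ => ?_⟩
  have h1 : (σ : H) * ⟨_, h0⟩ = ⟨_, h0⟩ * hh H σ x₀ := by
    apply Subtype.ext
    rw [Subgroup.coe_mul, Subgroup.coe_mul, hh_of_mem σ.2]
    group
  have h2 : c σ + R σ (c ⟨_, h0⟩) = c ⟨_, h0⟩ + R (rep H x₀) (c (hh H σ x₀)) := by
    rw [← hc, h1, hc]
  have h3 : m • R (rep H x₀) (c (hh H σ x₀)) = R σ (∑ i, y i) - ∑ i, y i := by
    rw [← key σ, Finset.sum_congr rfl fun i _ => hy i σ σ.2, Finset.sum_sub_distrib, map_sum]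
  have h4 : R (rep H x₀) (c (hh H σ x₀)) = m⁻¹ • (R σ (∑ i, y i) - ∑ i, y i) := by
    rw [← h3, smul_smul, inv_mul_cancel₀ hm0, one_smul]
  rw [h4] at h2
  have h5 : c σ = c ⟨_, h0⟩ + m⁻¹ • (R σ (∑ i, y i) - ∑ i, y i) - R σ (c ⟨_, h0⟩) :=
    eq_sub_of_add_eq h2
  rw [h5, map_sub, map_smul, smul_sub]
  abel

/-- averaging: a cocycle which is trivial on a subgroup of finite index of `I` is trivial on `I` -/
theorem avg [H.Normal] (I : Subgroup G) {F : G → V} (hF : ∀ σ τ, F (σ * τ) = F σ + R σ (F τ))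
    (h : ∃ y, ∀ σ ∈ I, σ ∈ H → F σ = R σ y - y) : ∃ y, ∀ σ ∈ I, F σ = R σ y - y := by
  obtain ⟨y, hy⟩ := h
  set F₁ : G → V := fun σ => F σ - (R σ y - y) with hF₁
  have h1 : ∀ σ τ, F₁ (σ * τ) = F₁ σ + R σ (F₁ τ) := by
    intro σ τ
    simp only [hF₁]
    rw [hF, map_sub, map_sub, map_mul, Module.End.mul_apply]
    abel
  have h2 : ∀ σ ∈ I, σ ∈ H → F₁ σ = 0 := by
    intro σ h3 h4
    simp only [hF₁]
    rw [hy σ h3 h4, sub_self]
  set N : Subgroup I := H.subgroupOf I with hN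
  have : Finite (I ⧸ N) := Subgroup.finite_quotient_of_finiteIndex
  have : Fintype (I ⧸ N) := Fintype.ofFinite _
  set m : ℚ_[2] := (Fintype.card (I ⧸ N) : ℚ_[2]) with hm
  have hm0 : m ≠ 0 := by
    rw [hm]
    exact_mod_cast Fintype.card_ne_zero
  set t : I ⧸ N → I := Quotient.out with ht
  have htm : ∀ q, ((t q : I) : I ⧸ N) = q := fun q => Quotient.out_eq q
  have h3 : ∀ (σ : I) (q : I ⧸ N), F₁ (σ * t q : I) = F₁ (t (σ • q)) := by
    intro σ q
    have h4 : ((t (σ • q) : I) : I ⧸ N) = ((σ * t q : I) : I ⧸ N) := by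
      rw [htm]
      show σ • q = σ • ((t q : I) : I ⧸ N)
      rw [htm]
    rw [QuotientGroup.eq] at h4
    have h5 : σ * t q = t (σ • q) * ((t (σ • q))⁻¹ * (σ * t q)) := by group
    rw [h5, Subgroup.coe_mul, h1, h2 _ (Subtype.property _) (Subgroup.mem_subgroupOf.1 h4), map_zero,
      add_zero]
  have h4 : ∀ σ : I, m • F₁ σ + R σ (∑ q, F₁ (t q)) = ∑ q, F₁ (t q) := by
    intro σ
    have h5 : ∑ q, F₁ (t (σ • q)) = ∑ q, F₁ (t q) :=
      Fintype.sum_equiv (MulAction.toPerm σ) _ _ fun q => rfl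
    have h6 : ∀ q, F₁ (σ * t q : I) = F₁ σ + R σ (F₁ (t q)) := fun q => by
      rw [Subgroup.coe_mul, h1]
    have h7 : ∑ q, F₁ (σ * t q : I) = ∑ q, F₁ (t q) := by
      rw [← h5]
      exact Finset.sum_congr rfl fun q _ => h3 σ q
    have h8 : ∑ q, F₁ (σ * t q : I) = m • F₁ σ + R σ (∑ q, F₁ (t q)) := by
      rw [Finset.sum_congr rfl fun q _ => h6 q, Finset.sum_add_distrib, map_sum, Finset.sum_const,
        Finset.card_univ, hm, Nat.cast_smul_eq_nsmul]
    rw [← h8, h7]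
  refine ⟨y - m⁻¹ • ∑ q, F₁ (t q), fun σ hσ => ?_⟩
  have h5 := h4 ⟨σ, hσ⟩
  have h6 : F₁ σ = m⁻¹ • (∑ q, F₁ (t q) - R σ (∑ q, F₁ (t q))) := by
    have h7 : m • F₁ σ = ∑ q, F₁ (t q) - R σ (∑ q, F₁ (t q)) := eq_sub_of_add_eq h5
    rw [← h7, smul_smul, inv_mul_cancel₀ hm0, one_smul]
  have h7 : F σ = F₁ σ + (R σ y - y) := by simp [hF₁]
  rw [h7, h6, map_sub, map_smul, smul_sub]
  abel

/-- the local condition at the places prime to two, on `I ⊓ H` -/
theorem cor_local [H.Normal] (I : Set G) (χ : G →* ℤˣ) {c : H → V}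
    (h : ∀ g : G, ∃ y, ∀ σ : H, g * σ * g⁻¹ ∈ I → c σ = R σ y - y) :
    ∃ y, ∀ σ ∈ I, σ ∈ H → cor R H χ c σ = R σ y - y := by
  choose y hy using h
  refine ⟨∑ x : G ⧸ H, sg χ (rep H x) • R (rep H x) (y (rep H x)), fun σ hI hH => ?_⟩
  unfold cor
  rw [map_sum, ← Finset.sum_sub_distrib]
  refine Finset.sum_congr rfl fun x _ => ?_
  have h1 : (rep H x) * (hh H σ x : G) * (rep H x)⁻¹ ∈ I := by
    rw [hh_of_mem hH]
    have e : rep H x * ((rep H x)⁻¹ * σ * rep H x) * (rep H x)⁻¹ = σ := by group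
    rwa [e]
  rw [conj_cob (hh_of_mem hH x) (hy (rep H x) (hh H σ x) h1), smul_sub, map_smul]

end alg

section coords

variable {G : Type} [Group G] {B : Type} {R : Representation ℚ_[2] G (B → ℚ_[2])}
  {H : Subgroup G} [H.FiniteIndex]

/-- the local condition at the places above two, for some coordinates -/
theorem cor_local_two [H.Normal] (I : Set G) (hI : I ⊆ H) (S : Set B) (χ : G →* ℤˣ)
    {c : H → B → ℚ_[2]}
    (h : ∀ g : G, ∃ y, ∀ σ : H, g * σ * g⁻¹ ∈ I → ∀ b ∈ S, R g (c σ - (R σ y - y)) b = 0) :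
    ∃ y, ∀ σ ∈ I, ∀ b ∈ S, cor R H χ c σ b = (R σ y - y) b := by
  choose y hy using h
  refine ⟨∑ x : G ⧸ H, sg χ (rep H x) • R (rep H x) (y (rep H x)), fun σ hσ b hb => ?_⟩
  have hH : σ ∈ H := hI hσ
  unfold cor
  rw [map_sum, ← Finset.sum_sub_distrib, Finset.sum_apply, Finset.sum_apply]
  refine Finset.sum_congr rfl fun x _ => ?_
  have h1 : (rep H x) * (hh H σ x : G) * (rep H x)⁻¹ ∈ I := by
    rw [hh_of_mem hH]
    have e : rep H x * ((rep H x)⁻¹ * σ * rep H x) * (rep H x)⁻¹ = σ := by group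
    rwa [e]
  have h2 := hy (rep H x) (hh H σ x) h1 b hb
  rw [map_sub, Pi.sub_apply, sub_eq_zero] at h2
  have h3 := conj_cob (R := R) (y := y (rep H x)) (hh_of_mem hH x) rfl
  rw [h3] at h2
  rw [Pi.smul_apply, h2, map_smul, ← smul_sub, Pi.smul_apply]

end coords

section top

variable {G : Type} [Group G] [TopologicalSpace G] [IsTopologicalGroup G] {B : Type} [Fintype B]
  {R : Representation ℚ_[2] G (B → ℚ_[2])} {H : Subgroup G} [H.FiniteIndex]

theorem cor_cont (hH : IsOpen (H : Set G)) (χ : G →* ℤˣ) {c : H → B → ℚ_[2]}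
    (hc : Continuous c) : Continuous (cor R H χ c) := by
  have : DiscreteTopology (G ⧸ H) := QuotientGroup.discreteTopology hH
  unfold cor
  have h1 : ∀ x : G ⧸ H, Continuous (R (rep H x)) := fun x =>
    LinearMap.continuous_of_finiteDimensional _
  have h2 : ∀ x : G ⧸ H, Continuous fun σ : G => (σ⁻¹ • x : G ⧸ H) := by
    intro x
    have h3 : (fun σ : G => (σ⁻¹ • x : G ⧸ H)) = fun σ : G => ((σ⁻¹ * rep H x : G) : G ⧸ H) := by
      funext σ
      conv_lhs => rw [← rep_mk H x]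
      rfl
    rw [h3]
    have h5 : Continuous fun σ : G => σ⁻¹ * rep H x := continuous_inv.mul continuous_const
    exact (continuous_quotient_mk' : Continuous (Quotient.mk (QuotientGroup.leftRel H))).comp h5
  have h4 : ∀ x : G ⧸ H, Continuous fun σ : G => rep H (σ⁻¹ • x) := fun x =>
    (continuous_of_discreteTopology).comp (h2 x)
  refine continuous_finsetSum _ fun x _ => ?_
  have h6 : Continuous fun σ : G => R (rep H x) (c (hh H σ x)) := by
    refine (h1 x).comp (hc.comp ?_)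
    exact Continuous.subtype_mk ((continuous_const.mul continuous_id).mul (h4 x)) _
  exact Continuous.const_smul (M := ℚ_[2]) (α := B → ℚ_[2]) h6 (sg χ (rep H x))

end top

end Pool.Agent.K3h19.MT
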