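import Pool.Agent.R384.Inf2

/-!
# Multiquadratic towers: the statement of the number theoretic step (helper19)
-/

set_option autoImplicit false

namespace Pool.Agent.K3h19.MT

open Pool.Agent.R384

/-- Brick TOW: there are infinitely many `D` such that for an infinite set `C` of prime numbers
`l`, congruent to `1` modulo `8`, all products of `D` with different elements of `C` are as in `Fac`
and not squares modulo the odd prime divisors of `m`. -/
def S_TOW : Prop := ∀ m : OO, m ≠ 0 → (∀ π : OO, Prime π → ¬ π ∣ 2 → π ∣ m → Sqm π (-1)) →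
  {D : OO | ∃ C : Set ℕ, C.Infinite ∧ (∀ l ∈ C, l.Prime ∧ l % 8 = 1) ∧
    ∀ S : Finset ℕ, (S : Set ℕ) ⊆ C →
      (∃ (N : ℕ) (q : Fin N → OO), Fac q ∧ D * ∏ l ∈ S, ((l : ℤ) : OO) = ∏ i, q i) ∧
      ∀ π : OO, Prime π → ¬ π ∣ 2 → π ∣ m → ¬ Sqm π (D * ∏ l ∈ S, ((l : ℤ) : OO))}.Infinite

end Pool.Agent.K3h19.MT
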